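import Pool.Agent.R3B.StmtsB

/-!
# Squad R3B (MP_be01ff_an), row CTG: continuity of the gradient
-/

set_option autoImplicit false

namespace Pool.Agent.R3B.H85

open Set Filter Topology MeasureTheory
open scoped ENNReal
open Pool.Agent.BE01F
open Pool.Agent.R3B

theorem ctg (hNRV : NrvStmt) (hHDY : HdyStmt) : CtgStmt := by
  intro a α ℓ w V Z A B C ha hα hℓ hP t ht
  unfold Ctv
  have hK : IsCompact (Icc (0 : ℝ) (t + 1) ×ˢ Icc (0 : ℝ) ℓ) := isCompact_Icc.prod isCompact_Icc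
  have hZ : ContinuousOn (fun z : ℝ × ℝ => Z z.1 z.2) (Icc (0 : ℝ) (t + 1) ×ˢ Icc (0 : ℝ) ℓ) :=
    hP.cZ.mono (Set.prod_mono Icc_subset_Ici_self le_rfl)
  have hU := hK.uniformContinuousOn_of_continuous hZ
  rw [Metric.uniformContinuousOn_iff] at hU
  have hcont : ∀ s, 0 ≤ s → ContinuousOn (Z s) (Icc 0 ℓ) := by
    intro s hs
    have h1 : ContinuousOn (fun r : ℝ => (s, r)) (Icc 0 ℓ) := by fun_prop
    exact hP.cZ.comp h1 (fun r hr => ⟨hs, hr⟩)
  have hpi : 0 < 4 * Real.pi * ℓ := by positivity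
  have key : ∀ s η, 0 ≤ s → 0 ≤ η → (∀ r, 0 ≤ r → r ≤ ℓ → |Z s r - Z t r| ≤ η) →
      nrmv (Bl ℓ) (fun x => rg (w s) (Z s) x - rg (w t) (Z t) x) ≤
        ENNReal.ofReal (Real.sqrt (4 * Real.pi * ℓ) * η) := by
    intro s η hs hη hb
    have hg : ContinuousOn (fun r => Z s r - Z t r) (Icc 0 ℓ) := (hcont s hs).sub (hcont t ht)
    have hf : ∀ r, 0 ≤ r → r ≤ ℓ → (w s r - w t r) = ∫ ρ in (0 : ℝ)..r, (Z s ρ - Z t ρ) := by
      intro r hr hrl
      have hi : ∀ s, 0 ≤ s → IntervalIntegrable (Z s) volume 0 r := by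
        intro s hs
        apply ContinuousOn.intervalIntegrable_of_Icc hr
        exact (hcont s hs).mono (Icc_subset_Icc le_rfl hrl)
      rw [hP.wr s r hs hr hrl, hP.wr t r ht hr hrl,
        intervalIntegral.integral_sub (hi s hs) (hi t ht)]
    have h1 := (hNRV ℓ (fun r => w s r - w t r) (fun r => Z s r - Z t r) hℓ hg hf).2
    have h2 := hHDY ℓ (fun r => w s r - w t r) (fun r => Z s r - Z t r) hℓ hg hf
    have h3 : (fun x => rg (w s) (Z s) x - rg (w t) (Z t) x) =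
        rg (fun r => w s r - w t r) (fun r => Z s r - Z t r) := by
      funext x
      simp only [rg]
      rw [← sub_smul]
      congr 1
      ring
    rw [h3, h1]
    apply ENNReal.ofReal_le_ofReal
    rw [h2]
    have h4 : (∫ r in (0 : ℝ)..ℓ, (Z s r - Z t r) ^ 2) ≤ ∫ r in (0 : ℝ)..ℓ, η ^ 2 := by
      apply intervalIntegral.integral_mono_on hℓ.le
      · apply ContinuousOn.intervalIntegrable_of_Icc hℓ.le
        exact hg.pow 2
      · exact intervalIntegrable_const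
      · intro r hr
        have := hb r hr.1 hr.2
        exact sq_le_sq' (by linarith [(abs_le.mp this).1]) (abs_le.mp this).2
    rw [intervalIntegral.integral_const] at h4
    have h5 : 0 ≤ (w s ℓ - w t ℓ) ^ 2 / ℓ := by positivity
    have h6 : 4 * Real.pi * ((∫ r in (0 : ℝ)..ℓ, (Z s r - Z t r) ^ 2) - (w s ℓ - w t ℓ) ^ 2 / ℓ) ≤
        (4 * Real.pi * ℓ) * η ^ 2 := by
      have h7 : (∫ r in (0 : ℝ)..ℓ, (Z s r - Z t r) ^ 2) - (w s ℓ - w t ℓ) ^ 2 / ℓ ≤ ℓ * η ^ 2 := by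
        simp only [sub_zero, smul_eq_mul] at h4
        linarith
      have h8 : 0 ≤ 4 * Real.pi := by positivity
      calc _ ≤ 4 * Real.pi * (ℓ * η ^ 2) := mul_le_mul_of_nonneg_left h7 h8
        _ = _ := by ring
    calc _ ≤ Real.sqrt ((4 * Real.pi * ℓ) * η ^ 2) := Real.sqrt_le_sqrt h6
      _ = Real.sqrt (4 * Real.pi * ℓ) * η := by
        rw [Real.sqrt_mul hpi.le, Real.sqrt_sq hη]
  rw [ENNReal.tendsto_nhds_zero]
  intro ε hε
  obtain ⟨e, he0, heε⟩ : ∃ e : ℝ, 0 < e ∧ ENNReal.ofReal e ≤ ε := by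
    rcases eq_or_ne ε ⊤ with h | h
    · exact ⟨1, one_pos, by rw [h]; exact le_top⟩
    · exact ⟨ε.toReal, ENNReal.toReal_pos hε.ne' h, by rw [ENNReal.ofReal_toReal h]⟩
  have hc : 0 < Real.sqrt (4 * Real.pi * ℓ) := Real.sqrt_pos.mpr hpi
  obtain ⟨δ, hδ, hδ2⟩ := hU (e / Real.sqrt (4 * Real.pi * ℓ)) (by positivity)
  have hev : ∀ᶠ s in 𝓝[Ici 0] t, s ∈ Ici (0 : ℝ) ∧ |s - t| < min δ 1 := by
    apply Filter.Eventually.and self_mem_nhdsWithin
    apply nhdsWithin_le_nhds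
    have : Metric.ball t (min δ 1) ∈ 𝓝 t := Metric.ball_mem_nhds t (by positivity)
    filter_upwards [this] with s hs
    rwa [Metric.mem_ball, Real.dist_eq] at hs
  filter_upwards [hev] with s hs
  obtain ⟨hs0, hs1⟩ := hs
  have hs2 : |s - t| < δ := lt_of_lt_of_le hs1 (min_le_left _ _)
  have hs3 : |s - t| < 1 := lt_of_lt_of_le hs1 (min_le_right _ _)
  have hs4 : s ≤ t + 1 := by linarith [(abs_lt.mp hs3).2]
  have h9 := key s (e / Real.sqrt (4 * Real.pi * ℓ)) hs0 (by positivity) (by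
    intro r hr hrl
    have h10 := hδ2 (s, r) ⟨⟨hs0, hs4⟩, ⟨hr, hrl⟩⟩ (t, r) ⟨⟨ht, by linarith⟩, ⟨hr, hrl⟩⟩ (by
      rw [Prod.dist_eq]
      simp only [dist_self]
      rw [Real.dist_eq]
      exact max_lt hs2 hδ)
    rw [Real.dist_eq] at h10
    exact h10.le)
  refine h9.trans ?_
  rw [mul_div_cancel₀ e hc.ne']
  exact heε

end Pool.Agent.R3B.H85

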