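import Pool.Agent.R3B.StmtsU

/-!
# Squad R3B (MP_be01ff_an), row FLR: lower bound of the energy over a bounded time
-/

set_option autoImplicit false

namespace Pool.Agent.R3B.H85

open Set Filter Topology MeasureTheory
open Pool.Agent.Helper39_Wave (phi mul_phi integral_reflect)
open Pool.Agent.Helper72_Shell (CharSol En psi fold)
open Pool.Agent.R3B

theorem psi_le {κ α ℓ b0 : ℝ} {b : ℝ → ℝ} {P : ℝ → ℝ → ℝ} {k0 k1 Λ : ℝ}
    (H : UB κ α ℓ b0 b P k0 k1 Λ) {s : ℝ} (hs : 0 ≤ s) :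
    κ * psi α ℓ b P s ≤ 4 * (k1 * Λ ^ α) * En ℓ P s := by
  have h := H.sol
  have hα := h.apos
  have hℓ := h.lpos
  have hκ := h.kpos
  have hΛa : 0 ≤ Λ ^ α := Real.rpow_nonneg H.Λn α
  have hk : 0 ≤ k1 * Λ ^ α := mul_nonneg H.k1n hΛa
  have cP : Continuous (fun y => P s y) := h.contP continuous_const continuous_id
  have cPs : Continuous (fun y => P s y ^ 2) := cP.pow 2
  have cPr : Continuous (fun y => P s (2 * s - y) ^ 2) :=
    (h.contP continuous_const (by fun_prop)).pow 2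
  have hpt : ∀ y ∈ Icc (0 : ℝ) (2 * ℓ), κ * (b (y - s) * |P s y - P s (2 * s - y)| ^ (α + 2)) ≤
      (2 * (k1 * Λ ^ α)) * (P s y ^ 2 + P s (2 * s - y) ^ 2) := by
    intro y _
    obtain ⟨D, hD⟩ : ∃ D : ℝ, D = P s y - P s (2 * s - y) := ⟨_, rfl⟩
    rw [← hD]
    have hf : 0 ≤ fold ℓ (y - s) := Pool.Agent.Helper72_Shell.fold_nonneg hℓ _
    have hfa : 0 ≤ fold ℓ (y - s) ^ α := Real.rpow_nonneg hf α
    have h1 : |D| ≤ Λ * fold ℓ (y - s) := by rw [hD]; exact H.vb s y hs
    have h2 : |D| ^ (α + 2) = |D| ^ α * D ^ 2 := by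
      rw [← mul_phi hα]; unfold phi; ring
    have h3 : |D| ^ α ≤ Λ ^ α * fold ℓ (y - s) ^ α := by
      rw [← Real.mul_rpow H.Λn hf]
      exact Real.rpow_le_rpow (abs_nonneg _) h1 hα.le
    have hbn := h.bnn (y - s)
    have h4 : κ * b (y - s) * |D| ^ α ≤ k1 * Λ ^ α := by
      calc κ * b (y - s) * |D| ^ α ≤ κ * b (y - s) * (Λ ^ α * fold ℓ (y - s) ^ α) :=
            mul_le_mul_of_nonneg_left h3 (mul_nonneg hκ.le hbn)
        _ = (κ * b (y - s) * fold ℓ (y - s) ^ α) * Λ ^ α := by ring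
        _ ≤ k1 * Λ ^ α := mul_le_mul_of_nonneg_right (H.hi _) hΛa
    have h5 : D ^ 2 ≤ 2 * (P s y ^ 2 + P s (2 * s - y) ^ 2) := by
      have := sq_nonneg (P s y + P s (2 * s - y))
      rw [hD]; nlinarith
    calc κ * (b (y - s) * |D| ^ (α + 2)) = (κ * b (y - s) * |D| ^ α) * D ^ 2 := by rw [h2]; ring
      _ ≤ (k1 * Λ ^ α) * D ^ 2 := mul_le_mul_of_nonneg_right h4 (sq_nonneg _)
      _ ≤ (k1 * Λ ^ α) * (2 * (P s y ^ 2 + P s (2 * s - y) ^ 2)) :=
          mul_le_mul_of_nonneg_left h5 hk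
      _ = _ := by ring
  have e1 : (∫ y in (0 : ℝ)..(2 * ℓ), κ * (b (y - s) * |P s y - P s (2 * s - y)| ^ (α + 2))) ≤
      ∫ y in (0 : ℝ)..(2 * ℓ), (2 * (k1 * Λ ^ α)) * (P s y ^ 2 + P s (2 * s - y) ^ 2) :=
    intervalIntegral.integral_mono_on (by linarith)
      ((continuous_const.mul (h.cD continuous_const continuous_id)).intervalIntegrable _ _)
      ((continuous_const.mul (cPs.add cPr)).intervalIntegrable _ _) hpt
  rw [intervalIntegral.integral_const_mul, intervalIntegral.integral_const_mul,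
    intervalIntegral.integral_add (cPs.intervalIntegrable _ _) (cPr.intervalIntegrable _ _)] at e1
  have e2 : ∫ y in (0 : ℝ)..(2 * ℓ), P s (2 * s - y) ^ 2 =
      ∫ y in (0 : ℝ)..(2 * ℓ), P s y ^ 2 := by
    apply integral_reflect (g := fun y => P s y ^ 2)
    intro y
    simp only
    rw [h.per]
  rw [e2] at e1
  unfold En psi
  linarith

theorem flr : FlrStmt := by
  intro κ α ℓ b0 b P k0 k1 Λ H T δ hT hδ
  have h := H.sol
  have hκ := h.kpos
  obtain ⟨K, hK⟩ : ∃ K : ℝ, K = 4 * (k1 * Λ ^ α) := ⟨_, rfl⟩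
  rw [← hK]
  have hpc := h.psi_cont
  obtain ⟨F, hF⟩ : ∃ F : ℝ → ℝ, F = fun s => En ℓ P T - κ * ∫ r in T..s, psi α ℓ b P r := ⟨_, rfl⟩
  have hFE : ∀ s, T ≤ s → F s = En ℓ P s := by
    intro s hs
    have := h.energy_identity hT hs
    rw [hF]
    simp only
    linarith
  have hFd : ∀ s, HasDerivAt F (-(κ * psi α ℓ b P s)) s := by
    intro s
    have h2 := (intervalIntegral.integral_hasDerivAt_right (hpc.intervalIntegrable T s)
      (hpc.stronglyMeasurableAtFilter _ _) hpc.continuousAt).const_mul κ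
    rw [hF]
    have h3 := h2.const_sub (En ℓ P T)
    exact h3
  have hG : ∀ s, HasDerivAt (fun s => Real.exp (K * (s - T)) * F s)
      (Real.exp (K * (s - T)) * (K * F s - κ * psi α ℓ b P s)) s := by
    intro s
    have h1 : HasDerivAt (fun s : ℝ => K * (s - T)) K s := by
      have := ((hasDerivAt_id s).sub_const T).const_mul K
      simpa using this
    have h2 := h1.exp.mul (hFd s)
    have h3 : Real.exp (K * (s - T)) * (K * F s - κ * psi α ℓ b P s) =
        Real.exp (K * (s - T)) * K * F s + Real.exp (K * (s - T)) * (-(κ * psi α ℓ b P s)) := by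
      ring
    rw [h3]
    exact h2
  have hmono : MonotoneOn (fun s => Real.exp (K * (s - T)) * F s) (Icc T (T + δ)) := by
    apply monotoneOn_of_deriv_nonneg (convex_Icc _ _)
    · exact fun s _ => (hG s).continuousAt.continuousWithinAt
    · exact fun s _ => (hG s).differentiableAt.differentiableWithinAt
    · intro s hs
      rw [interior_Icc] at hs
      rw [(hG s).deriv]
      apply mul_nonneg (Real.exp_pos _).le
      rw [hFE s hs.1.le]
      have := psi_le H (hT.trans hs.1.le)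
      rw [← hK] at this
      linarith
  have h5 := hmono ⟨le_rfl, by linarith⟩ ⟨by linarith, le_rfl⟩ (by linarith : T ≤ T + δ)
  simp only [sub_self, mul_zero, Real.exp_zero, one_mul, add_sub_cancel_left] at h5
  rw [hFE T le_rfl, hFE (T + δ) (by linarith)] at h5
  calc Real.exp (-(K * δ)) * En ℓ P T ≤ Real.exp (-(K * δ)) * (Real.exp (K * δ) * En ℓ P (T + δ)) :=
        mul_le_mul_of_nonneg_left h5 (Real.exp_pos _).le
    _ = En ℓ P (T + δ) := by
        rw [← mul_assoc, ← Real.exp_add, neg_add_cancel, Real.exp_zero, one_mul]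

end Pool.Agent.R3B.H85

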